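import Mathlib

set_option autoImplicit false
set_option linter.unusedSectionVars false

/-!
# The Riesz ratio of a level-2 multi-tiling family in `Z_p^2` tends to infinity

The columns of `T(E,B)` are the edges `(b_2, b_1 + b_2)` of a bipartite graph on `Z_p ⊔ Z_p` with
`2p` edges and `2p` vertices. It contains a short cycle or a long path, and alternating functions on
them are almost annihilated by `T`.
-/

namespace Pool.Agent.Results.MP_1b30fb_an.RieszUnbounded

open Finset Filter Topology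
open scoped ENNReal Matrix.Norms.L2Operator

/-! ### Definitions -/

/-- the character `e_b(x) = exp (2 π i (b · x) / p)` -/
noncomputable def chr (p : ℕ) (b x : ZMod p × ZMod p) : ℂ :=
  Complex.exp (2 * Real.pi * Complex.I * ((b.1 * x.1 + b.2 * x.2).val : ℂ) / p)

/-- the matrix `T(E,B)`, with rows indexed by `E` and columns indexed by `B` -/
noncomputable def T (p : ℕ) (E B : Finset (ZMod p × ZMod p)) : Matrix E B ℂ :=
  Matrix.of fun x b => chr p b x

/-- `ρ_E(B) = ‖T‖² ‖T⁻¹‖²`, with the operator norms for the Euclidean norms, and `⊤` if `T` has no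
inverse -/
noncomputable def ratioAt (p : ℕ) (E B : Finset (ZMod p × ZMod p)) : ℝ≥0∞ :=
  ⨅ (S : Matrix B E ℂ) (_ : T p E B * S = 1 ∧ S * T p E B = 1),
    ENNReal.ofReal (‖T p E B‖ ^ 2 * ‖S‖ ^ 2)

/-- the Riesz ratio `ρ(E)` -/
noncomputable def ratio (p : ℕ) (E : Finset (ZMod p × ZMod p)) : ℝ≥0∞ :=
  ⨅ (B : Finset (ZMod p × ZMod p)) (_ : B.card = E.card), ratioAt p E B

/-- the set `({0} × Z_p) ∪ {(t,t)} ∪ {(1,0)}` -/
def setE (p : ℕ) [NeZero p] : Finset (ZMod p × ZMod p) :=
  univ.image (fun s : ZMod p => ((0 : ZMod p), s)) ∪ univ.image (fun t : ZMod p => (t, t)) ∪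
    {((1 : ZMod p), (0 : ZMod p))}

/-! ### Cycles and paths in bipartite graphs -/

section Graph

variable {ι α β : Type*} [DecidableEq ι] [DecidableEq α] [DecidableEq β]

theorem remove {α β : Type*} [DecidableEq α] [DecidableEq β] (L : ι → α) (R : ι → β)
    (B : Finset ι) (b : ι) (hb : b ∈ B) (huniq : ∀ b' ∈ B, b' ≠ b → L b' ≠ L b)
    (hcard : (B.image L).card + (B.image R).card ≤ B.card) :
    (B.erase b).Nonempty ∧
      ((B.erase b).image L).card + ((B.erase b).image R).card ≤ (B.erase b).card := by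
  have h1 : ((B.erase b).image L).card + 1 ≤ (B.image L).card := by
    have hsub : (B.erase b).image L ⊆ (B.image L).erase (L b) := by
      intro a ha
      obtain ⟨b', hb', rfl⟩ := mem_image.mp ha
      rw [mem_erase] at hb'
      exact mem_erase.mpr ⟨huniq b' hb'.2 hb'.1, mem_image_of_mem L hb'.2⟩
    have h2 := card_le_card hsub
    have h3 := card_erase_add_one (mem_image_of_mem L hb)
    omega
  have h2 : ((B.erase b).image R).card ≤ (B.image R).card :=
    card_le_card (image_subset_image (erase_subset _ _))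
  have h3 := card_erase_add_one hb
  have h4 : 0 < (B.image R).card := card_pos.mpr ⟨R b, mem_image_of_mem R hb⟩
  have h5 : 0 < (B.image L).card := card_pos.mpr ⟨L b, mem_image_of_mem L hb⟩
  refine ⟨?_, by omega⟩
  rw [← card_pos]
  omega

theorem exists_core (L : ι → α) (R : ι → β) (n : ℕ) : ∀ B : Finset ι, B.card = n → B.Nonempty →
    (B.image L).card + (B.image R).card ≤ B.card →
    ∃ S ⊆ B, S.Nonempty ∧ (∀ b ∈ S, ∃ b' ∈ S, b' ≠ b ∧ L b' = L b) ∧
      (∀ b ∈ S, ∃ b' ∈ S, b' ≠ b ∧ R b' = R b) := by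
  induction n with
  | zero =>
    intro B hB hne
    exact absurd (card_eq_zero.mp hB) hne.ne_empty
  | succ n ih =>
    intro B hB hne hcard
    by_cases h1 : ∀ b ∈ B, ∃ b' ∈ B, b' ≠ b ∧ L b' = L b
    · by_cases h2 : ∀ b ∈ B, ∃ b' ∈ B, b' ≠ b ∧ R b' = R b
      · exact ⟨B, Subset.rfl, hne, h1, h2⟩
      · push Not at h2
        obtain ⟨b, hb, h2⟩ := h2
        obtain ⟨h3, h4⟩ := remove R L B b hb h2 (by omega)
        obtain ⟨S, hS, h⟩ := ih (B.erase b) (by rw [card_erase_of_mem hb, hB]; rfl) h3 (by omega)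
        exact ⟨S, hS.trans (erase_subset _ _), h⟩
    · push Not at h1
      obtain ⟨b, hb, h1⟩ := h1
      obtain ⟨h3, h4⟩ := remove L R B b hb h1 hcard
      obtain ⟨S, hS, h⟩ := ih (B.erase b) (by rw [card_erase_of_mem hb, hB]; rfl) h3 h4
      exact ⟨S, hS.trans (erase_subset _ _), h⟩

theorem exists_walk (L : ι → α) (R : ι → β) (S : Finset ι) (hne : S.Nonempty)
    (hL : ∀ b ∈ S, ∃ b' ∈ S, b' ≠ b ∧ L b' = L b)
    (hR : ∀ b ∈ S, ∃ b' ∈ S, b' ≠ b ∧ R b' = R b) :
    ∃ e : ℕ → ι, (∀ k, e k ∈ S) ∧ (∀ k, e (k + 1) ≠ e k) ∧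
      (∀ k, Even k → L (e (k + 1)) = L (e k)) ∧ (∀ k, ¬ Even k → R (e (k + 1)) = R (e k)) := by
  obtain ⟨b₀, hb₀⟩ := hne
  have : Nonempty ι := ⟨b₀⟩
  choose! l hl1 hl2 hl3 using hL
  choose! r hr1 hr2 hr3 using hR
  let e : ℕ → ι := fun k => Nat.rec b₀ (fun k b => if Even k then l b else r b) k
  have he : ∀ k, e (k + 1) = if Even k then l (e k) else r (e k) := fun k => rfl
  have hmem : ∀ k, e k ∈ S := by
    intro k
    induction k with
    | zero => exact hb₀
    | succ k ih =>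
      rw [he]
      split_ifs
      exacts [hl1 _ ih, hr1 _ ih]
  refine ⟨e, hmem, fun k => ?_, fun k hk => ?_, fun k hk => ?_⟩
  · rw [he]
    split_ifs
    exacts [hl2 _ (hmem k), hr2 _ (hmem k)]
  · rw [he, if_pos hk]
    exact hl3 _ (hmem k)
  · rw [he, if_neg hk]
    exact hr3 _ (hmem k)

/-- the incidence of the edge `b` and the vertex `w` -/
def inc (L : ι → α) (R : ι → β) (b : ι) (w : α ⊕ β) : ℂ :=
  (if Sum.inl (L b) = w then 1 else 0) + (if Sum.inr (R b) = w then 1 else 0)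

/-- A short cycle or a long path. -/
theorem dichotomy [Finite α] [Finite β] (L : ι → α) (R : ι → β) (B : Finset ι) (hne : B.Nonempty)
    (hcard : (B.image L).card + (B.image R).card ≤ B.card) (M : ℕ) :
    ∃ (e : ℕ → ι) (v : ℕ → α ⊕ β), (∀ k, e k ∈ B) ∧
      (∀ k w, inc L R (e k) w = (if v k = w then 1 else 0) + (if v (k + 1) = w then 1 else 0)) ∧
      ((∃ i j, i < j ∧ j ≤ M ∧ v i = v j ∧ (Even i ↔ Even j) ∧ Set.InjOn e (Ico i j)) ∨
        ((∀ k l, k < l → l ≤ M → v k ≠ v l) ∧ Set.InjOn e (range M))) := by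
  obtain ⟨S, hSB, hSne, hL, hR⟩ := exists_core L R B.card B rfl hne hcard
  obtain ⟨e, he, hne', hl, hr⟩ := exists_walk L R S hSne hL hR
  set v : ℕ → α ⊕ β := fun k => if Even k then Sum.inr (R (e k)) else Sum.inl (L (e k)) with hv
  have hve : ∀ k, Even k → v k = Sum.inr (R (e k)) := fun k hk => if_pos hk
  have hvo : ∀ k, ¬ Even k → v k = Sum.inl (L (e k)) := fun k hk => if_neg hk
  have hve' : ∀ k, Even k → v (k + 1) = Sum.inl (L (e k)) := by
    intro k hk
    rw [hvo (k + 1) (by rw [Nat.even_add_one]; exact not_not.mpr hk), hl k hk]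
  have hvo' : ∀ k, ¬ Even k → v (k + 1) = Sum.inr (R (e k)) := by
    intro k hk
    rw [hve (k + 1) (by rw [Nat.even_add_one]; exact hk), hr k hk]
  -- two occurrences of the same edge
  have hends : ∀ k l, e k = e l → (v k = v l ∧ v (k + 1) = v (l + 1)) ∨
      (v k = v (l + 1) ∧ v (k + 1) = v l) := by
    intro k l h
    by_cases hk : Even k <;> by_cases hl : Even l
    · left
      rw [hve k hk, hve l hl, hve' k hk, hve' l hl, h]
      exact ⟨rfl, rfl⟩
    · right
      rw [hve k hk, hvo l hl, hve' k hk, hvo' l hl, h]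
      exact ⟨rfl, rfl⟩
    · right
      rw [hvo k hk, hve l hl, hvo' k hk, hve' l hl, h]
      exact ⟨rfl, rfl⟩
    · left
      rw [hvo k hk, hvo l hl, hvo' k hk, hvo' l hl, h]
      exact ⟨rfl, rfl⟩
  refine ⟨e, v, fun k => hSB (he k), ?_, ?_⟩
  · intro k w
    unfold inc
    by_cases hk : Even k
    · rw [hve k hk, hve' k hk, add_comm]
    · rw [hvo k hk, hvo' k hk]
  -- the first repetition of a vertex
  have hex : ∃ j, ∃ i < j, v i = v j := by
    obtain ⟨x, y, hxy, h⟩ := Finite.exists_ne_map_eq_of_infinite v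
    rcases Nat.lt_or_gt_of_ne hxy with h1 | h1
    · exact ⟨y, x, h1, h⟩
    · exact ⟨x, y, h1, h.symm⟩
  classical
  set j := Nat.find hex with hj
  have hmin : ∀ l < j, ∀ k < l, v k ≠ v l := by
    intro l hl k hk h
    exact Nat.find_min hex hl ⟨k, hk, h⟩
  obtain ⟨i, hij, hvij⟩ : ∃ i < j, v i = v j := Nat.find_spec hex
  by_cases hjM : j ≤ M
  · left
    refine ⟨i, j, hij, hjM, hvij, ?_, ?_⟩
    · by_cases hi : Even i <;> by_cases hj' : Even j
      · exact ⟨fun _ => hj', fun _ => hi⟩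
      · rw [hve i hi, hvo j hj'] at hvij
        exact absurd hvij (by simp)
      · rw [hvo i hi, hve j hj'] at hvij
        exact absurd hvij (by simp)
      · exact ⟨fun h => absurd h hi, fun h => absurd h hj'⟩
    · -- injectivity
      have key : ∀ k l, i ≤ k → k < l → l < j → e k ≠ e l := by
        intro k l hik hkl hlj h
        rcases hends k l h with ⟨h1, -⟩ | ⟨h1, h2⟩
        · exact hmin l hlj k hkl h1
        · have h3 : l + 1 = j := by
            by_contra hcon
            exact hmin (l + 1) (by omega) k (by omega) h1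
          have h4 : k = i := by
            rw [h3, ← hvij] at h1
            by_contra hcon
            exact hmin k (by omega) i (by omega) h1.symm
          have h5 : k + 1 = l := by
            by_contra hcon
            exact hmin l hlj (k + 1) (by omega) h2
          rw [← h5] at h
          exact hne' k h.symm
      intro k hk l hl hkl
      simp only [coe_Ico, Set.mem_Ico] at hk hl
      rcases lt_trichotomy k l with h | h | h
      · exact absurd hkl (key k l hk.1 h hl.2)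
      · exact h
      · exact absurd hkl.symm (key l k hl.1 h hk.2)
  · right
    rw [not_le] at hjM
    refine ⟨fun k l hkl hlM => hmin l (by omega) k hkl, ?_⟩
    have key : ∀ k l, k < l → l < M → e k ≠ e l := by
      intro k l hkl hlM h
      rcases hends k l h with ⟨h1, -⟩ | ⟨h1, -⟩
      · exact hmin l (by omega) k hkl h1
      · exact hmin (l + 1) (by omega) k (by omega) h1
    intro k hk l hl hkl
    simp only [coe_range, Set.mem_Iio] at hk hl
    rcases lt_trichotomy k l with h | h | h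
    · exact absurd hkl (key k l h hl)
    · exact h
    · exact absurd hkl.symm (key l k h hk)

/-- the function `∑_{k ∈ K} d_k δ_{e_k}` -/
def comb (e : ℕ → ι) (d : ℕ → ℂ) (K : Finset ℕ) (b : ι) : ℂ := ∑ k ∈ K, if e k = b then d k else 0

theorem norm_comb (e : ℕ → ι) (d : ℕ → ℂ) (K : Finset ℕ) (B : Finset ι) (heB : ∀ k, e k ∈ B)
    (hinj : Set.InjOn e K) : ∑ b ∈ B, ‖comb e d K b‖ ^ 2 = ∑ k ∈ K, ‖d k‖ ^ 2 := by
  have h1 : ∑ b ∈ B, ‖comb e d K b‖ ^ 2 = ∑ b ∈ K.image e, ‖comb e d K b‖ ^ 2 := by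
    symm
    apply sum_subset
    · intro b hb
      obtain ⟨k, -, rfl⟩ := mem_image.mp hb
      exact heB k
    · intro b _ hb
      have : comb e d K b = 0 := by
        unfold comb
        apply sum_eq_zero
        intro k hk
        rw [if_neg]
        rintro rfl
        exact hb (mem_image_of_mem e hk)
      rw [this, norm_zero]
      norm_num
  rw [h1, sum_image hinj]
  apply sum_congr rfl
  intro k hk
  have : comb e d K (e k) = d k := by
    unfold comb
    rw [sum_eq_single k]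
    · rw [if_pos rfl]
    · intro l hl hlk
      rw [if_neg]
      intro h
      exact hlk (hinj hl hk h)
    · intro h
      exact absurd hk h
  rw [this]

/-- pairing of `comb` with a function -/
theorem pair_comb (e : ℕ → ι) (d : ℕ → ℂ) (K : Finset ℕ) (B : Finset ι) (heB : ∀ k, e k ∈ B)
    (g : ι → ℂ) : ∑ b ∈ B, comb e d K b * g b = ∑ k ∈ K, d k * g (e k) := by
  unfold comb
  simp only [sum_mul]
  rw [sum_comm]
  apply sum_congr rfl
  intro k _
  rw [sum_eq_single (e k)]
  · rw [if_pos rfl]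
  · intro b _ hb
    rw [if_neg (fun h => hb h.symm), zero_mul]
  · intro h
    exact absurd (heB k) h

theorem telescope (u : ℕ → ℂ) (s t : ℕ) (hst : s ≤ t) :
    ∑ k ∈ Ico s t, (-1 : ℂ) ^ k * (u k + u (k + 1)) = (-1) ^ s * u s - (-1) ^ t * u t := by
  induction t, hst using Nat.le_induction with
  | base => simp
  | succ t hst ih =>
    rw [sum_Ico_succ_top hst, ih, pow_succ]
    ring

end Graph

/-! ### The operator `T` -/

section Main

variable {p : ℕ} [NeZero p]

/-- left vertex of the edge `b` -/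
def Lv (b : ZMod p × ZMod p) : ZMod p := b.2

/-- right vertex of the edge `b` -/
def Rv (b : ZMod p × ZMod p) : ZMod p := b.1 + b.2

theorem chr_eq (b x : ZMod p × ZMod p) :
    chr p b x = ZMod.stdAddChar (b.1 * x.1 + b.2 * x.2) := by
  rw [ZMod.stdAddChar_apply, ZMod.toCircle_apply]
  rfl

theorem norm_chr (b x : ZMod p × ZMod p) : ‖chr p b x‖ = 1 := by
  rw [chr_eq, ZMod.stdAddChar_apply]
  exact Circle.norm_coe _

theorem parseval (F : ZMod p → ℂ) :
    ∑ s : ZMod p, ‖∑ a, F a * ZMod.stdAddChar (a * s)‖ ^ 2 = p * ∑ a, ‖F a‖ ^ 2 := by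
  have h : ((∑ s : ZMod p, ‖∑ a, F a * ZMod.stdAddChar (a * s)‖ ^ 2 : ℝ) : ℂ) =
      ((p * ∑ a, ‖F a‖ ^ 2 : ℝ) : ℂ) := by
    push_cast
    have h1 : ∀ z : ℂ, ((‖z‖ : ℂ)) ^ 2 = z * (starRingEnd ℂ) z := fun z => (Complex.mul_conj' z).symm
    simp only [h1, map_sum, map_mul]
    have h2 : ∀ s : ZMod p, (∑ a, F a * ZMod.stdAddChar (a * s)) *
        (∑ b, (starRingEnd ℂ) (F b) * (starRingEnd ℂ) (ZMod.stdAddChar (b * s))) =
        ∑ a, ∑ b, F a * (starRingEnd ℂ) (F b) * ZMod.stdAddChar (s * (a - b)) := by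
      intro s
      rw [sum_mul_sum]
      apply sum_congr rfl
      intro a _
      apply sum_congr rfl
      intro b _
      have h3 : (starRingEnd ℂ) (ZMod.stdAddChar (b * s)) = ZMod.stdAddChar (-(b * s)) :=
        (AddChar.map_neg_eq_conj _ _).symm
      have h4 : s * (a - b) = a * s + -(b * s) := by ring
      rw [h3, h4, AddChar.map_add_eq_mul]
      ring
    rw [sum_congr rfl (fun s _ => h2 s), sum_comm, mul_sum]
    apply sum_congr rfl
    intro a _
    rw [sum_comm]
    rw [sum_eq_single a]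
    · simp only [sub_self, mul_zero, AddChar.map_zero_eq_one, mul_one, sum_const, card_univ,
        ZMod.card, nsmul_eq_mul]
    · intro b _ hb
      rw [← mul_sum, AddChar.sum_mulShift _ (ZMod.isPrimitive_stdAddChar p), if_neg, Nat.cast_zero,
        mul_zero]
      intro h
      exact hb (sub_eq_zero.mp h).symm
    · intro h
      exact absurd (mem_univ a) h
  exact_mod_cast h

theorem group (B : Finset (ZMod p × ZMod p)) (f : ZMod p × ZMod p → ℂ)
    (Λ : ZMod p × ZMod p → ZMod p) (s : ZMod p) :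
    ∑ b ∈ B, f b * ZMod.stdAddChar (Λ b * s) =
      ∑ a, (∑ b ∈ B, f b * (if Λ b = a then 1 else 0)) * ZMod.stdAddChar (a * s) := by
  simp only [sum_mul]
  rw [sum_comm]
  apply sum_congr rfl
  intro b _
  rw [sum_eq_single (Λ b)]
  · rw [if_pos rfl, mul_one]
  · intro a _ ha
    rw [if_neg (fun h => ha h.symm), mul_zero, zero_mul]
  · intro h
    exact absurd (mem_univ _) h

theorem energy_le (B : Finset (ZMod p × ZMod p)) (f : ZMod p × ZMod p → ℂ) :
    ∑ x ∈ setE p, ‖∑ b ∈ B, f b * chr p b x‖ ^ 2 ≤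
      p * ∑ w : ZMod p ⊕ ZMod p, ‖∑ b ∈ B, f b * inc Lv Rv b w‖ ^ 2 +
        ‖∑ b ∈ B, f b * chr p b (1, 0)‖ ^ 2 := by
  have hunion : ∀ (s t : Finset (ZMod p × ZMod p)) (F : ZMod p × ZMod p → ℝ), (∀ x, 0 ≤ F x) →
      ∑ x ∈ s ∪ t, F x ≤ ∑ x ∈ s, F x + ∑ x ∈ t, F x := by
    intro s t F hF
    rw [← sum_union_inter]
    have := sum_nonneg (s := s ∩ t) (fun x _ => hF x)
    linarith
  have hpos : ∀ x : ZMod p × ZMod p, 0 ≤ ‖∑ b ∈ B, f b * chr p b x‖ ^ 2 := fun x => by positivity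
  have h1 := hunion (univ.image (fun s : ZMod p => ((0 : ZMod p), s)) ∪
    univ.image (fun t : ZMod p => (t, t))) {((1 : ZMod p), (0 : ZMod p))} _ hpos
  have h2 := hunion (univ.image (fun s : ZMod p => ((0 : ZMod p), s)))
    (univ.image (fun t : ZMod p => (t, t))) _ hpos
  rw [sum_singleton] at h1
  rw [sum_image (by intro a _ b _ h; exact (Prod.mk.inj h).2),
    sum_image (by intro a _ b _ h; exact (Prod.mk.inj h).1)] at h2
  have h3 : ∑ s : ZMod p, ‖∑ b ∈ B, f b * chr p b (0, s)‖ ^ 2 =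
      p * ∑ a, ‖∑ b ∈ B, f b * inc Lv Rv b (Sum.inl a)‖ ^ 2 := by
    have h4 : ∀ s : ZMod p, ∑ b ∈ B, f b * chr p b (0, s) =
        ∑ a, (∑ b ∈ B, f b * inc Lv Rv b (Sum.inl a)) * ZMod.stdAddChar (a * s) := by
      intro s
      have h5 := group B f Lv s
      have h6 : ∀ (b : ZMod p × ZMod p) (a : ZMod p), inc Lv Rv b (Sum.inl a) =
          if Lv b = a then 1 else 0 := by
        intro b a
        simp [inc]
      simp only [h6]
      rw [← h5]
      apply sum_congr rfl
      intro b _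
      rw [chr_eq]
      simp [Lv]
    rw [← parseval]
    exact sum_congr rfl (fun s _ => by rw [h4 s])
  have h3' : ∑ s : ZMod p, ‖∑ b ∈ B, f b * chr p b (s, s)‖ ^ 2 =
      p * ∑ a, ‖∑ b ∈ B, f b * inc Lv Rv b (Sum.inr a)‖ ^ 2 := by
    have h4 : ∀ s : ZMod p, ∑ b ∈ B, f b * chr p b (s, s) =
        ∑ a, (∑ b ∈ B, f b * inc Lv Rv b (Sum.inr a)) * ZMod.stdAddChar (a * s) := by
      intro s
      have h5 := group B f Rv s
      have h6 : ∀ (b : ZMod p × ZMod p) (a : ZMod p), inc Lv Rv b (Sum.inr a) =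
          if Rv b = a then 1 else 0 := by
        intro b a
        simp [inc]
      simp only [h6]
      rw [← h5]
      apply sum_congr rfl
      intro b _
      rw [chr_eq]
      simp [Rv, add_mul]
    rw [← parseval]
    exact sum_congr rfl (fun s _ => by rw [h4 s])
  rw [Fintype.sum_sum_type, mul_add, ← h3, ← h3']
  unfold setE
  linarith

/-- There is a function that `T` almost annihilates. -/
theorem key (B : Finset (ZMod p × ZMod p)) (hB : 2 * p ≤ B.card) (m : ℕ) (hm : 1 ≤ m) :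
    ∃ f : ZMod p × ZMod p → ℂ, 0 < ∑ b ∈ B, ‖f b‖ ^ 2 ∧
      ∑ x ∈ setE p, ‖∑ b ∈ B, f b * chr p b x‖ ^ 2 ≤
        max (2 * (m : ℝ)) (3 * (p : ℝ) / m) * ∑ b ∈ B, ‖f b‖ ^ 2 := by
  have hp0 : 0 < p := Nat.pos_of_ne_zero (NeZero.ne p)
  have hm0 : (0 : ℝ) < m := by exact_mod_cast hm
  have hne : B.Nonempty := card_pos.mp (by omega)
  have hcard : (B.image Lv).card + (B.image Rv).card ≤ B.card := by
    have h1 : (B.image Lv).card ≤ p := by
      have := card_le_univ (B.image Lv)
      rwa [ZMod.card] at this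
    have h2 : (B.image Rv).card ≤ p := by
      have := card_le_univ (B.image Rv)
      rwa [ZMod.card] at this
    omega
  obtain ⟨e, v, heB, hinc, hcase⟩ := dichotomy Lv Rv B hne hcard (2 * m)
  rcases hcase with ⟨i, j, hij, hjM, hvij, hpar, hinj⟩ | ⟨hv, hinj⟩
  · -- a short cycle
    refine ⟨comb e (fun k => (-1) ^ k) (Ico i j), ?_, ?_⟩
    · rw [norm_comb e _ _ B heB hinj]
      simp only [norm_pow, norm_neg, norm_one, one_pow, sum_const, Nat.card_Ico, nsmul_eq_mul,
        mul_one]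
      exact_mod_cast Nat.sub_pos_of_lt hij
    · refine le_trans (energy_le B _) ?_
      have h1 : ∀ w : ZMod p ⊕ ZMod p, ∑ b ∈ B, comb e (fun k => (-1) ^ k) (Ico i j) b *
          inc Lv Rv b w = 0 := by
        intro w
        rw [pair_comb e _ _ B heB]
        have h2 := telescope (fun k => if v k = w then (1 : ℂ) else 0) i j hij.le
        rw [sum_congr rfl (fun k _ => by rw [hinc k w]), h2, hvij]
        have h3 : (-1 : ℂ) ^ i = (-1) ^ j := by
          rcases Nat.even_or_odd i with h | h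
          · rw [h.neg_one_pow, (hpar.mp h).neg_one_pow]
          · have h4 : Odd j := by
              rw [← Nat.not_even_iff_odd] at h ⊢
              exact fun h5 => h (hpar.mpr h5)
            rw [h.neg_one_pow, h4.neg_one_pow]
        rw [h3, sub_self]
      simp only [h1, norm_zero]
      rw [norm_comb e _ _ B heB hinj, pair_comb e _ _ B heB]
      simp only [norm_pow, norm_neg, norm_one, one_pow, sum_const, Nat.card_Ico, nsmul_eq_mul,
        mul_one]
      have h5 : ‖∑ k ∈ Ico i j, (-1 : ℂ) ^ k * chr p (e k) (1, 0)‖ ≤ ((j - i : ℕ) : ℝ) := by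
        refine le_trans (norm_sum_le _ _) ?_
        simp only [norm_mul, norm_pow, norm_neg, norm_one, one_pow, one_mul, norm_chr, sum_const,
          Nat.card_Ico, nsmul_eq_mul, mul_one]
        exact le_rfl
      have h6 : ((j - i : ℕ) : ℝ) ≤ max (2 * (m : ℝ)) (3 * (p : ℝ) / m) := by
        refine le_trans ?_ (le_max_left _ _)
        have : j - i ≤ 2 * m := by omega
        exact_mod_cast this
      have h7 : (0 : ℝ) ≤ ((j - i : ℕ) : ℝ) := Nat.cast_nonneg _
      calc _ = ‖∑ k ∈ Ico i j, (-1 : ℂ) ^ k * chr p (e k) (1, 0)‖ ^ 2 := by simp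
        _ ≤ ((j - i : ℕ) : ℝ) ^ 2 := pow_le_pow_left₀ (norm_nonneg _) h5 2
        _ ≤ _ := by
            rw [sq]
            exact mul_le_mul_of_nonneg_right h6 h7
  · -- a long path
    set X₁ : ℂ := ∑ k ∈ Ico 0 m, (-1 : ℂ) ^ k * chr p (e k) (1, 0) with hX₁
    set X₂ : ℂ := ∑ k ∈ Ico m (2 * m), (-1 : ℂ) ^ k * chr p (e k) (1, 0) with hX₂
    obtain ⟨α, β, hαβ, hpos⟩ : ∃ α β : ℂ, α * X₁ + β * X₂ = 0 ∧ 0 < ‖α‖ ^ 2 + ‖β‖ ^ 2 := by
      by_cases h : X₁ = 0 ∧ X₂ = 0
      · exact ⟨1, 0, by rw [h.1, h.2]; ring, by norm_num⟩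
      · refine ⟨X₂, -X₁, by ring, ?_⟩
        rw [not_and_or] at h
        rw [norm_neg]
        rcases h with h | h
        · have : 0 < ‖X₁‖ := norm_pos_iff.mpr h
          positivity
        · have : 0 < ‖X₂‖ := norm_pos_iff.mpr h
          positivity
    set d : ℕ → ℂ := fun k => (-1) ^ k * (if k < m then α else β) with hd
    have hsplit : ∀ g : ℕ → ℂ, ∑ k ∈ range (2 * m), d k * g k =
        α * ∑ k ∈ Ico 0 m, (-1 : ℂ) ^ k * g k + β * ∑ k ∈ Ico m (2 * m), (-1 : ℂ) ^ k * g k := by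
      intro g
      rw [range_eq_Ico, ← sum_Ico_consecutive _ (Nat.zero_le m) (by omega : m ≤ 2 * m), mul_sum,
        mul_sum]
      congr 1
      · apply sum_congr rfl
        intro k hk
        rw [mem_Ico] at hk
        simp only [hd]
        rw [if_pos hk.2]
        ring
      · apply sum_congr rfl
        intro k hk
        rw [mem_Ico] at hk
        simp only [hd]
        rw [if_neg (by omega)]
        ring
    have hnorm : ∑ k ∈ range (2 * m), ‖d k‖ ^ 2 = m * (‖α‖ ^ 2 + ‖β‖ ^ 2) := by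
      rw [range_eq_Ico, ← sum_Ico_consecutive _ (Nat.zero_le m) (by omega : m ≤ 2 * m), mul_add]
      congr 1
      · rw [sum_congr rfl (g := fun _ => ‖α‖ ^ 2)]
        · simp
        · intro k hk
          rw [mem_Ico] at hk
          simp only [hd]
          rw [if_pos hk.2]
          simp
      · rw [sum_congr rfl (g := fun _ => ‖β‖ ^ 2)]
        · simp only [sum_const, Nat.card_Ico, nsmul_eq_mul]
          congr 2
          omega
        · intro k hk
          rw [mem_Ico] at hk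
          simp only [hd]
          rw [if_neg (by omega)]
          simp
    refine ⟨comb e d (range (2 * m)), ?_, ?_⟩
    · rw [norm_comb e _ _ B heB hinj, hnorm]
      exact mul_pos hm0 hpos
    · refine le_trans (energy_le B _) ?_
      rw [norm_comb e _ _ B heB hinj, hnorm, pair_comb e _ _ B heB, hsplit, ← hX₁, ← hX₂, hαβ,
        norm_zero]
      have h1 : ∀ w : ZMod p ⊕ ZMod p, ‖∑ b ∈ B, comb e d (range (2 * m)) b * inc Lv Rv b w‖ ^ 2 =
          (if v 0 = w then ‖α‖ ^ 2 else 0) + (if v m = w then ‖β - α‖ ^ 2 else 0) +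
            (if v (2 * m) = w then ‖β‖ ^ 2 else 0) := by
        intro w
        rw [pair_comb e _ _ B heB, sum_congr rfl (fun k _ => by rw [hinc k w]), hsplit,
          telescope (fun k => if v k = w then (1 : ℂ) else 0) 0 m (Nat.zero_le m),
          telescope (fun k => if v k = w then (1 : ℂ) else 0) m (2 * m) (by omega)]
        have h2 : v 0 ≠ v m := hv 0 m (by omega) (by omega)
        have h3 : v m ≠ v (2 * m) := hv m (2 * m) (by omega) le_rfl
        have h4 : v 0 ≠ v (2 * m) := hv 0 (2 * m) (by omega) le_rfl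
        have h5 : (-1 : ℂ) ^ (2 * m) = 1 := by rw [pow_mul]; simp
        by_cases hw0 : v 0 = w
        · subst hw0
          simp only [if_neg h2.symm, if_neg h4.symm]
          simp
        · by_cases hwm : v m = w
          · subst hwm
            simp only [if_neg h2, if_neg h3.symm]
            simp only [if_true, mul_zero, zero_sub, mul_one, sub_zero, zero_add, add_zero]
            have h6 : α * -(-1 : ℂ) ^ m + β * (-1) ^ m = (-1) ^ m * (β - α) := by ring
            rw [h6, norm_mul]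
            simp
          · by_cases hw2 : v (2 * m) = w
            · subst hw2
              simp only [if_neg h3, if_neg h4]
              simp [h5]
            · simp only [if_neg hw0, if_neg hwm, if_neg hw2]
              simp
      have h7 : ∑ w : ZMod p ⊕ ZMod p, ‖∑ b ∈ B, comb e d (range (2 * m)) b *
          inc Lv Rv b w‖ ^ 2 = ‖α‖ ^ 2 + ‖β - α‖ ^ 2 + ‖β‖ ^ 2 := by
        rw [sum_congr rfl (fun w _ => h1 w), sum_add_distrib, sum_add_distrib]
        simp
      rw [h7]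
      have h8 : ‖β - α‖ ^ 2 ≤ 2 * (‖α‖ ^ 2 + ‖β‖ ^ 2) := by
        have h9 : ‖β - α‖ ≤ ‖β‖ + ‖α‖ := norm_sub_le _ _
        have h10 : ‖β - α‖ ^ 2 ≤ (‖β‖ + ‖α‖) ^ 2 := pow_le_pow_left₀ (norm_nonneg _) h9 2
        nlinarith [sq_nonneg (‖β‖ - ‖α‖)]
      have hp1 : (0 : ℝ) < p := by exact_mod_cast hp0
      calc (p : ℝ) * (‖α‖ ^ 2 + ‖β - α‖ ^ 2 + ‖β‖ ^ 2) + 0 ^ 2
          ≤ (p : ℝ) * (3 * (‖α‖ ^ 2 + ‖β‖ ^ 2)) := by
            rw [zero_pow two_ne_zero, add_zero]
            apply mul_le_mul_of_nonneg_left _ hp1.le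
            linarith
        _ = (3 * p / m) * (m * (‖α‖ ^ 2 + ‖β‖ ^ 2)) := by
            field_simp
        _ ≤ _ := by
            apply mul_le_mul_of_nonneg_right (le_max_right _ _)
            positivity


theorem card_setE (hp : 2 ≤ p) : (setE p).card = 2 * p := by
  have h10 : (1 : ZMod p) ≠ 0 := by
    intro h
    have h1 := (ZMod.natCast_eq_zero_iff 1 p).mp (by exact_mod_cast h)
    have := Nat.le_of_dvd one_pos h1
    omega
  have h1 : (univ.image (fun s : ZMod p => ((0 : ZMod p), s))).card = p := by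
    rw [card_image_of_injective _ (fun a b h => (Prod.mk.inj h).2), card_univ, ZMod.card]
  have h2 : (univ.image (fun t : ZMod p => (t, t))).card = p := by
    rw [card_image_of_injective _ (fun a b h => (Prod.mk.inj h).1), card_univ, ZMod.card]
  have h3 : univ.image (fun s : ZMod p => ((0 : ZMod p), s)) ∩ univ.image (fun t : ZMod p => (t, t)) =
      {((0 : ZMod p), (0 : ZMod p))} := by
    ext ⟨a, b⟩
    simp only [mem_inter, mem_image, mem_univ, true_and, mem_singleton, Prod.mk.injEq]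
    constructor
    · rintro ⟨⟨s, h4, h5⟩, ⟨t, h6, h7⟩⟩
      exact ⟨h4.symm, by rw [← h7, h6, ← h4]⟩
    · rintro ⟨rfl, rfl⟩
      exact ⟨⟨0, rfl, rfl⟩, ⟨0, rfl, rfl⟩⟩
  have h4 := card_union_add_card_inter (univ.image (fun s : ZMod p => ((0 : ZMod p), s)))
    (univ.image (fun t : ZMod p => (t, t)))
  rw [h3, h1, h2, card_singleton] at h4
  unfold setE
  rw [card_union_of_disjoint]
  · rw [card_singleton]
    omega
  · rw [disjoint_singleton_right]
    simp only [mem_union, mem_image, mem_univ, true_and, Prod.mk.injEq, not_or, not_exists, not_and]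
    refine ⟨fun s h => ?_, fun s h h' => ?_⟩
    · exact absurd h.symm h10
    · exact h10 (h.symm.trans h')

theorem ratioAt_ge (hp : 2 ≤ p) (B : Finset (ZMod p × ZMod p)) (hB : B.card = (setE p).card)
    (m : ℕ) (hm : 1 ≤ m) :
    ENNReal.ofReal (min ((p : ℝ) / m) (2 * m / 3)) ≤ ratioAt p (setE p) B := by
  have hp1 : (0 : ℝ) < p := by
    have : 0 < p := by omega
    exact_mod_cast this
  have hm0 : (0 : ℝ) < m := by exact_mod_cast hm
  unfold ratioAt
  refine le_iInf₂ (fun S hS => ?_)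
  apply ENNReal.ofReal_le_ofReal
  rw [card_setE hp] at hB
  obtain ⟨f, hf, hTf⟩ := key B hB.ge m hm
  set κ := max (2 * (m : ℝ)) (3 * (p : ℝ) / m) with hκ
  have hκ0 : 0 < κ := lt_of_lt_of_le (by positivity) (le_max_left _ _)
  -- lower bound for the norm of `T`
  have hT : (2 * p : ℝ) ≤ ‖T p (setE p) B‖ ^ 2 := by
    have hBne : B.Nonempty := card_pos.mp (by omega)
    obtain ⟨b₀, hb₀⟩ := hBne
    have h1 := Matrix.l2_opNorm_mulVec (T p (setE p) B)
      (EuclideanSpace.single (⟨b₀, hb₀⟩ : B) (1 : ℂ))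
    rw [EuclideanSpace.norm_single, norm_one, mul_one] at h1
    have h2 : ‖(WithLp.toLp 2 ((T p (setE p) B).mulVec
        (EuclideanSpace.single (⟨b₀, hb₀⟩ : B) (1 : ℂ))) : EuclideanSpace ℂ (setE p))‖ ^ 2 = 2 * p := by
      rw [EuclideanSpace.norm_sq_eq]
      have h3 : ∀ x : setE p, ‖(WithLp.toLp 2 ((T p (setE p) B).mulVec
        (EuclideanSpace.single (⟨b₀, hb₀⟩ : B) (1 : ℂ))) : EuclideanSpace ℂ (setE p)) x‖ ^ 2 = 1 := by
        intro x
        have h4 : (T p (setE p) B).mulVec (EuclideanSpace.single (⟨b₀, hb₀⟩ : B) (1 : ℂ)) x =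
            chr p b₀ x := by
          simp [Matrix.mulVec, dotProduct, T]
        show ‖(T p (setE p) B).mulVec (EuclideanSpace.single (⟨b₀, hb₀⟩ : B) (1 : ℂ)) x‖ ^ 2 = 1
        rw [h4, norm_chr, one_pow]
      rw [sum_congr rfl (fun x _ => h3 x), sum_const, nsmul_eq_mul, mul_one, card_univ,
        Fintype.card_coe, card_setE hp]
      push_cast
      ring
    rw [← h2]
    exact pow_le_pow_left₀ (norm_nonneg _) h1 2
  -- lower bound for the norm of the inverse
  have hSn : 1 ≤ κ * ‖S‖ ^ 2 := by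
    set g : EuclideanSpace ℂ B := WithLp.toLp 2 (fun b : B => f b) with hg
    have hgn : ‖g‖ ^ 2 = ∑ b ∈ B, ‖f b‖ ^ 2 := by
      rw [EuclideanSpace.norm_sq_eq, ← sum_coe_sort B]
    set h : EuclideanSpace ℂ (setE p) := WithLp.toLp 2 ((T p (setE p) B).mulVec g) with hh
    have hhn : ‖h‖ ^ 2 = ∑ x ∈ setE p, ‖∑ b ∈ B, f b * chr p b x‖ ^ 2 := by
      rw [EuclideanSpace.norm_sq_eq, ← sum_coe_sort (setE p)]
      apply sum_congr rfl
      intro x _
      have h4 : (T p (setE p) B).mulVec g x = ∑ b ∈ B, f b * chr p b x := by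
        rw [← sum_coe_sort B]
        simp only [Matrix.mulVec, dotProduct, T, Matrix.of_apply]
        apply sum_congr rfl
        intro b _
        rw [mul_comm]
      show ‖(T p (setE p) B).mulVec g x‖ ^ 2 = _
      rw [h4]
    have h1 := Matrix.l2_opNorm_mulVec S h
    have h2 : WithLp.toLp 2 (S.mulVec h) = g := by
      have h3 : S.mulVec ((T p (setE p) B).mulVec g) = g := by
        rw [Matrix.mulVec_mulVec, hS.2, Matrix.one_mulVec]
      exact congrArg (WithLp.toLp 2) h3
    have h3 : ‖g‖ ≤ ‖S‖ * ‖h‖ := by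
      have h4 := h1
      rw [show (EuclideanSpace.equiv B ℂ).symm (S.mulVec h) = WithLp.toLp 2 (S.mulVec h) from rfl,
        h2] at h4
      exact h4
    have h4 : ‖g‖ ^ 2 ≤ ‖S‖ ^ 2 * ‖h‖ ^ 2 := by
      rw [← mul_pow]
      exact pow_le_pow_left₀ (norm_nonneg _) h3 2
    rw [hhn, hgn] at h4
    have h5 : ‖S‖ ^ 2 * ∑ x ∈ setE p, ‖∑ b ∈ B, f b * chr p b x‖ ^ 2 ≤
        ‖S‖ ^ 2 * (κ * ∑ b ∈ B, ‖f b‖ ^ 2) := mul_le_mul_of_nonneg_left hTf (by positivity)
    have h6 : 1 * ∑ b ∈ B, ‖f b‖ ^ 2 ≤ (κ * ‖S‖ ^ 2) * ∑ b ∈ B, ‖f b‖ ^ 2 := by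
      calc 1 * ∑ b ∈ B, ‖f b‖ ^ 2 ≤ ‖S‖ ^ 2 * (κ * ∑ b ∈ B, ‖f b‖ ^ 2) := by
            rw [one_mul]
            exact h4.trans h5
        _ = _ := by ring
    exact le_of_mul_le_mul_right h6 hf
  have h7 : min ((p : ℝ) / m) (2 * m / 3) * κ ≤ 2 * p := by
    rw [hκ]
    rcases le_total (2 * (m : ℝ)) (3 * (p : ℝ) / m) with h | h
    · rw [max_eq_right h]
      calc min ((p : ℝ) / m) (2 * m / 3) * (3 * (p : ℝ) / m) ≤ (2 * m / 3) * (3 * (p : ℝ) / m) :=
            mul_le_mul_of_nonneg_right (min_le_right _ _) (by positivity)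
        _ = 2 * p := by field_simp
    · rw [max_eq_left h]
      calc min ((p : ℝ) / m) (2 * m / 3) * (2 * (m : ℝ)) ≤ ((p : ℝ) / m) * (2 * (m : ℝ)) :=
            mul_le_mul_of_nonneg_right (min_le_left _ _) (by positivity)
        _ = 2 * p := by field_simp
  have hmin0 : 0 ≤ min ((p : ℝ) / m) (2 * m / 3) := le_min (by positivity) (by positivity)
  calc min ((p : ℝ) / m) (2 * m / 3) = min ((p : ℝ) / m) (2 * m / 3) * 1 := (mul_one _).symm
    _ ≤ min ((p : ℝ) / m) (2 * m / 3) * (κ * ‖S‖ ^ 2) := mul_le_mul_of_nonneg_left hSn hmin0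
    _ = (min ((p : ℝ) / m) (2 * m / 3) * κ) * ‖S‖ ^ 2 := by ring
    _ ≤ (2 * p) * ‖S‖ ^ 2 := mul_le_mul_of_nonneg_right h7 (by positivity)
    _ ≤ ‖T p (setE p) B‖ ^ 2 * ‖S‖ ^ 2 := mul_le_mul_of_nonneg_right hT (by positivity)

theorem ratio_ge (hp : 2 ≤ p) (m : ℕ) (hm : 1 ≤ m) :
    ENNReal.ofReal (min ((p : ℝ) / m) (2 * m / 3)) ≤ ratio p (setE p) :=
  le_iInf₂ (fun B hB => ratioAt_ge hp B hB m hm)

end Main

instance (n : ℕ) : NeZero (Nat.nth Nat.Prime n) := ⟨(Nat.prime_nth_prime n).ne_zero⟩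

/-- The Riesz ratio of the sets `E_n` tends to infinity (`Nat.nth Nat.Prime n` is the `n`-th odd
prime, `n ≥ 1`), at least as fast as `√p_n`. -/
theorem result :
    Tendsto (fun n : ℕ => ratio (Nat.nth Nat.Prime n) (setE (Nat.nth Nat.Prime n))) atTop (𝓝 ⊤) ∧
    ∀ (p : ℕ) [NeZero p], 2 ≤ p → ∀ m : ℕ, 1 ≤ m →
      ENNReal.ofReal (min ((p : ℝ) / m) (2 * m / 3)) ≤ ratio p (setE p) := by
  refine ⟨?_, fun p _ hp m hm => ratio_ge hp m hm⟩
  rw [ENNReal.tendsto_nhds_top_iff_nat]
  intro C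
  rw [eventually_atTop]
  refine ⟨(2 * (C + 1)) * (C + 1), fun n hn => ?_⟩
  have h1 : n ≤ Nat.nth Nat.Prime n := (Nat.nth_strictMono Nat.infinite_setOfPred_prime).le_apply
  have h2 := ratio_ge (p := Nat.nth Nat.Prime n) (Nat.prime_nth_prime n).two_le (2 * (C + 1))
    (by omega)
  refine lt_of_lt_of_le ?_ h2
  have h3 : ((C : ℕ) : ℝ≥0∞) = ENNReal.ofReal (C : ℝ) := (ENNReal.ofReal_natCast C).symm
  rw [h3, ENNReal.ofReal_lt_ofReal_iff_of_nonneg (Nat.cast_nonneg C), lt_min_iff]
  have h4 : (0 : ℝ) ≤ C := Nat.cast_nonneg C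
  constructor
  · rw [lt_div_iff₀ (by push_cast; positivity)]
    have h5 : ((2 * (C + 1) * (C + 1) : ℕ) : ℝ) ≤ ((Nat.nth Nat.Prime n : ℕ) : ℝ) := by
      exact_mod_cast hn.trans h1
    push_cast at h5 ⊢
    nlinarith
  · push_cast
    linarith

end Pool.Agent.Results.MP_1b30fb_an.RieszUnbounded
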